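import Pool.Agent.Lib.CF6.All

/-!
# Smooth cubic hypersurfaces with three conjugate linear spaces: Hasse principle and weak approximation
-/

set_option autoImplicit false

namespace Pool.Agent.Results.MP_deef10_nt.ConjugateSpaces

open MvPolynomial

private theorem aux (k K : Type) [Field k] [NumberField k] [Field K] [Algebra k K]
    (hK : Module.finrank k K = 3) (N m : ℕ) (hN : 3 ≤ N) (hm : m = N + N)
    (F : MvPolynomial (Fin m) k) (hF : F.IsHomogeneous 3)
    (hsm : ∀ z : Fin m → AlgebraicClosure k,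
      eval₂ (algebraMap k (AlgebraicClosure k)) z F = 0 →
      (∀ i, eval₂ (algebraMap k (AlgebraicClosure k)) z (pderiv i F) = 0) → z = 0)
    (P : Fin N → Fin m → K)
    (hP : ∀ c : Fin N → K, eval₂ (algebraMap k K) (fun l => ∑ j, c j * P j l) F = 0)
    (hskew : ∀ σ σ' : K →ₐ[k] AlgebraicClosure k, σ ≠ σ' → ∀ c d : Fin N → AlgebraicClosure k,
      (∀ l, ∑ j, c j * σ (P j l) = ∑ j, d j * σ' (P j l)) → c = 0 ∧ d = 0)
    (hloc : ∀ v : AbsoluteValue k ℝ, v.IsNontrivial → ∃ z : Fin m → v.Completion, z ≠ 0 ∧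
      eval₂ (algebraMap k v.Completion) z F = 0)
    (S : Finset (AbsoluteValue k ℝ)) (hS : ∀ v ∈ S, v.IsNontrivial)
    (hS' : ∀ v ∈ S, ∀ w ∈ S, v ≠ w → ¬ v.IsEquiv w)
    (z : ∀ v : AbsoluteValue k ℝ, Fin m → v.Completion)
    (hz : ∀ v ∈ S, z v ≠ 0 ∧ eval₂ (algebraMap k v.Completion) (z v) F = 0)
    (ε : ℝ) (hε : 0 < ε) :
    ∃ x : Fin m → k, x ≠ 0 ∧ eval x F = 0 ∧
      ∀ v ∈ S, ∀ i, ‖algebraMap k v.Completion (x i) - z v i‖ < ε := by
  subst hm
  exact (Pool.Agent.CF6.qFinaln k K hK N F hN hF hsm P hP hskew hloc).2 S hS hS' z hz ε hε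

/-- Let `k` be a number field, `K` a cubic extension of `k`, `N ≥ 3`, `n = 2N - 1` and `F` a cubic form in `n + 1`
variables over `k` such that the cubic hypersurface `F = 0` in `ℙⁿ` is smooth and contains the linear space over `K` of
dimension `N - 1` which is spanned by `P 0, …, P (N - 1) ∈ K^(n+1)`; assume that the three conjugates of this linear
space are pairwise skew.  Suppose that `F = 0` has points over all completions of `k` (at nontrivial absolute values).
Then for every finite set `S` of pairwise inequivalent nontrivial absolute values of `k`, every family of points over the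
completions at `v ∈ S` and every `ε > 0` there is a point over `k` which is `ε`-close to them.  (For `S = ∅` this is the
Hasse principle.) -/
theorem result (k K : Type) [Field k] [NumberField k] [Field K] [Algebra k K]
    (hK : Module.finrank k K = 3) (N n : ℕ) (hN : 3 ≤ N) (hn : n + 1 = 2 * N)
    (F : MvPolynomial (Fin (n + 1)) k) (hF : F.IsHomogeneous 3)
    (hsm : ∀ z : Fin (n + 1) → AlgebraicClosure k,
      eval₂ (algebraMap k (AlgebraicClosure k)) z F = 0 →
      (∀ i, eval₂ (algebraMap k (AlgebraicClosure k)) z (pderiv i F) = 0) → z = 0)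
    (P : Fin N → Fin (n + 1) → K)
    (hP : ∀ c : Fin N → K, eval₂ (algebraMap k K) (fun l => ∑ j, c j * P j l) F = 0)
    (hskew : ∀ σ σ' : K →ₐ[k] AlgebraicClosure k, σ ≠ σ' → ∀ c d : Fin N → AlgebraicClosure k,
      (∀ l, ∑ j, c j * σ (P j l) = ∑ j, d j * σ' (P j l)) → c = 0 ∧ d = 0)
    (hloc : ∀ v : AbsoluteValue k ℝ, v.IsNontrivial → ∃ z : Fin (n + 1) → v.Completion, z ≠ 0 ∧
      eval₂ (algebraMap k v.Completion) z F = 0)
    (S : Finset (AbsoluteValue k ℝ)) (hS : ∀ v ∈ S, v.IsNontrivial)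
    (hS' : ∀ v ∈ S, ∀ w ∈ S, v ≠ w → ¬ v.IsEquiv w)
    (z : ∀ v : AbsoluteValue k ℝ, Fin (n + 1) → v.Completion)
    (hz : ∀ v ∈ S, z v ≠ 0 ∧ eval₂ (algebraMap k v.Completion) (z v) F = 0)
    (ε : ℝ) (hε : 0 < ε) :
    ∃ x : Fin (n + 1) → k, x ≠ 0 ∧ eval x F = 0 ∧
      ∀ v ∈ S, ∀ i, ‖algebraMap k v.Completion (x i) - z v i‖ < ε :=
  aux k K hK N (n + 1) hN (by omega) F hF hsm P hP hskew hloc S hS hS' z hz ε hε

end Pool.Agent.Results.MP_deef10_nt.ConjugateSpaces
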